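import Mathlib

namespace Pool.Agent.Results.MP_0ab4d0_co.Seven

/-- Property `P_i`: any two distinct vertices are joined by a path with `i` vertices. -/
def P {n : ℕ} (G : SimpleGraph (Fin n)) (i : ℕ) : Prop :=
  ∀ u v, u ≠ v → ∃ p : G.Walk u v, p.IsPath ∧ p.length + 1 = i

/-- The closure of `S` for graphs of order `n`. -/
def closure (n : ℕ) (S : Set ℕ) : Set ℕ :=
  {j | 2 ≤ j ∧ j ≤ n ∧ ∀ G : SimpleGraph (Fin n), (∀ i ∈ S, P G i) → P G j}

def E : List (Fin 7 × Fin 7) := [(0, 1), (0, 2), (1, 4), (1, 6), (2, 3), (2, 6), (3, 5), (3, 6), (4, 5), (4, 6), (5, 6)]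

def G : SimpleGraph (Fin 7) where
  Adj a b := (a, b) ∈ E ∨ (b, a) ∈ E
  symm := ⟨fun _ _ h => h.symm⟩
  loopless := ⟨by decide⟩

instance : DecidableRel G.Adj := fun a b => inferInstanceAs (Decidable ((a, b) ∈ E ∨ (b, a) ∈ E))

def ex : ℕ → Fin 7 → Fin 7 → List (Fin 7) → Bool
  | 0, u, v, _ => u == v
  | k + 1, u, v, l => (List.finRange 7).any fun w =>
      decide (G.Adj u w) && (decide (w ∉ l) && ex k w v (w :: l))

theorem ex_iff (k : ℕ) : ∀ (u v : Fin 7) (l : List (Fin 7)), u ∈ l → (ex k u v l = true ↔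
    ∃ p : G.Walk u v, p.IsPath ∧ p.length = k ∧ ∀ x ∈ p.support, x ∈ l → x = u) := by
  induction k with
  | zero =>
    intro u v l _
    simp only [ex, beq_iff_eq]
    constructor
    · rintro rfl; exact ⟨.nil, by simp⟩
    · rintro ⟨p, _, h, _⟩; exact p.eq_of_length_eq_zero h
  | succ k ih =>
    intro u v l hu
    simp only [ex, List.any_eq_true, List.mem_finRange, true_and, Bool.and_eq_true,
      decide_eq_true_eq]
    constructor
    · rintro ⟨w, h1, h2, h3⟩
      obtain ⟨p, hp, hl, hs⟩ := (ih w v _ (by simp)).mp h3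
      refine ⟨.cons h1 p, ?_, by simp [hl], ?_⟩
      · rw [SimpleGraph.Walk.cons_isPath_iff]
        exact ⟨hp, fun h => h1.ne (hs u h (by simp [hu]))⟩
      · intro x hx hxl
        rw [SimpleGraph.Walk.support_cons, List.mem_cons] at hx
        rcases hx with rfl | hx
        · rfl
        · exact absurd (hs x hx (by simp [hxl]) ▸ hxl) h2
    · rintro ⟨p, hp, hl, hs⟩
      cases p with
      | nil => simp at hl
      | cons h1 p =>
        rename_i w
        rw [SimpleGraph.Walk.cons_isPath_iff] at hp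
        refine ⟨w, h1, fun h => h1.ne' (hs w (by simp) h),
          (ih w v _ (by simp)).mpr ⟨p, hp.1, by simpa using hl, fun x hx hxl => ?_⟩⟩
        rcases List.mem_cons.mp hxl with rfl | hxl
        · rfl
        · exact absurd (hs x (by simp [hx]) hxl ▸ hx) hp.2

theorem P_iff (k : ℕ) : P G (k + 1) ↔ ∀ u v, u ≠ v → ex k u v [u] = true := by
  refine forall_congr' fun u => forall_congr' fun v => imp_congr_right fun _ => ?_
  rw [ex_iff k u v [u] (by simp)]
  simp

theorem result : ∃ (n : ℕ) (S : Set ℕ) (a b c : ℕ), 4 ≤ n ∧ S ⊆ Set.Icc 4 n ∧ a < b ∧ b < c ∧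
    a ∈ closure n S ∧ c ∈ closure n S ∧ b ∉ closure n S := by
  refine ⟨7, {4, 6}, 4, 5, 6, by norm_num, ?_, by norm_num, by norm_num,
    ⟨by norm_num, by norm_num, fun G h => h 4 (by simp)⟩,
    ⟨by norm_num, by norm_num, fun G h => h 6 (by simp)⟩, fun h => ?_⟩
  · rintro _ (rfl | rfl) <;> simp
  · have h4 : P G 4 := (P_iff 3).mpr (by decide +kernel)
    have h6 : P G 6 := (P_iff 5).mpr (by decide +kernel)
    have h5 := (P_iff 4).mp (h.2.2 G (by rintro _ (rfl | rfl) <;> assumption))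
    revert h5
    decide +kernel

end Pool.Agent.Results.MP_0ab4d0_co.Seven
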